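import Mathlib
import Pool.Agent.H994E.Loop
import Pool.Agent.H994E.Final2

/-!
# MP_62448f_co: the dense case

`n` vertices, more than `n k` edges.  Some line avoiding the vertices meets at least `k² + k + 1`
edges whenever `n ≤ 4 k + 2`, and at least `k²` edges when `n ≤ 357`, or `k ≤ 78`, or
`k³ ≤ 4 n²`; in general some line meets at least `(80/81) k²` edges.
-/

namespace Pool.Agent.Results.MP_62448f_co.DenseCrossings

/-- A geometric graph: a finite set `pts` of points of the plane, no three of them collinear,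
and a finite set `edges` of unordered pairs of distinct points of `pts`. -/
structure GeomGraph where
  pts : Finset (ℝ × ℝ)
  no_three_collinear : ∀ p ∈ pts, ∀ q ∈ pts, ∀ r ∈ pts, p ≠ q → p ≠ r → q ≠ r →
    ¬ Collinear ℝ ({p, q, r} : Set (ℝ × ℝ))
  edges : Finset (Sym2 (ℝ × ℝ))
  edge_mem : ∀ e ∈ edges, ∀ p ∈ e, p ∈ pts
  edge_ne : ∀ e ∈ edges, ¬ e.IsDiag

/-- A straight line of the plane. -/
def IsLine (l : Set (ℝ × ℝ)) : Prop :=
  ∃ a b c : ℝ, (a ≠ 0 ∨ b ≠ 0) ∧ l = {x | a * x.1 + b * x.2 = c}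

/-- The closed straight segment drawn for an edge. -/
def drawn (e : Sym2 (ℝ × ℝ)) : Set (ℝ × ℝ) := convexHull ℝ {p | p ∈ e}

open Classical in
/-- The number of edges of `G` that the set `l` meets. -/
noncomputable def GeomGraph.met (G : GeomGraph) (l : Set (ℝ × ℝ)) : ℕ :=
  (G.edges.filter (fun e => (drawn e ∩ l).Nonempty)).card

open Pool.Agent.LinesCross

theorem allLines_of (G : GeomGraph) (t : ℕ) (_ht : 1 ≤ t)
    (h : ¬ ∃ l, IsLine l ∧ (∀ p ∈ G.pts, p ∉ l) ∧ t ≤ G.met l) :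
    AllLinesLe G.pts G.edges (t - 1) := by
  classical
  intro a b c hab hc
  push Not at h
  have h1 := h {x | a * x.1 + b * x.2 = c} ⟨a, b, c, hab, rfl⟩ (fun p hp hp' => hc p hp hp')
  refine le_trans (Finset.card_le_card ?_) (Nat.le_sub_one_of_lt h1)
  intro e he
  rw [Finset.mem_filter] at he ⊢
  obtain ⟨he, u, v, rfl, hu, hv⟩ := he
  refine ⟨he, ?_⟩
  have hset : {p : ℝ × ℝ | p ∈ s(u, v)} = {u, v} := by ext p; simp
  unfold drawn
  rw [hset, convexHull_pair]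
  set Fu := a * u.1 + b * u.2 with hFu
  set Fv := a * v.1 + b * v.2 with hFv
  have hd : 0 < Fv - Fu := by linarith
  refine ⟨((Fv - c) / (Fv - Fu)) • u + ((c - Fu) / (Fv - Fu)) • v,
    ⟨(Fv - c) / (Fv - Fu), (c - Fu) / (Fv - Fu), div_nonneg (by linarith) hd.le,
      div_nonneg (by linarith) hd.le, by field_simp; ring, rfl⟩, ?_⟩
  show a * _ + b * _ = c
  simp only [Prod.fst_add, Prod.smul_fst, Prod.snd_add, Prod.smul_snd, smul_eq_mul]
  have : a * ((Fv - c) / (Fv - Fu) * u.1 + (c - Fu) / (Fv - Fu) * v.1) +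
      b * ((Fv - c) / (Fv - Fu) * u.2 + (c - Fu) / (Fv - Fu) * v.2) =
      ((Fv - c) * Fu + (c - Fu) * Fv) / (Fv - Fu) := by
    rw [hFu, hFv]; ring
  rw [this]
  field_simp
  ring

/-- the geometric graph of the first file, for its bound on the sparse range -/
theorem factor_sparse (G : GeomGraph) (k : ℕ) (hk : 1 ≤ k) (he : G.pts.card * k < G.edges.card)
    (h4 : 4 * k ≤ G.pts.card) :
    ∃ l, IsLine l ∧ (∀ p ∈ G.pts, p ∉ l) ∧ (80 / 81 : ℝ) * (k : ℝ) ^ 2 ≤ (G.met l : ℝ) := by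
  obtain ⟨_, ⟨l, h1, h2, h3⟩, _⟩ := Pool.Agent.Results.MP_62448f_co.SharperCrossings.result
    ⟨G.pts, G.no_three_collinear, G.edges, G.edge_mem, G.edge_ne⟩ k hk he
  refine ⟨l, h1, h2, le_trans ?_ h3⟩
  have hq : 4 ≤ G.pts.card / k := by
    rw [Nat.le_div_iff_mul_le (by omega)]; exact h4
  have hq' : (4:ℝ) ≤ ((G.pts.card / k : ℕ) : ℝ) := by exact_mod_cast hq
  have h5 : 1 / (2 * ((G.pts.card / k : ℕ) : ℝ) + 1) ^ 2 ≤ 1 / 81 := by
    apply one_div_le_one_div_of_le (by norm_num)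
    nlinarith
  have h6 : (0:ℝ) ≤ (k:ℝ) ^ 2 := by positivity
  apply mul_le_mul_of_nonneg_right _ h6
  show (80 / 81 : ℝ) ≤ 1 - 1 / (2 * ((G.pts.card / k : ℕ) : ℝ) + 1) ^ 2
  linarith

/-- a set of points with two points at least, if there is an edge -/
theorem two_le (G : GeomGraph) (he : 1 ≤ G.edges.card) : 2 ≤ G.pts.card := by
  obtain ⟨e, he'⟩ := Finset.card_pos.1 he
  by_contra hlt
  push Not at hlt
  have hsub : ∀ p ∈ G.pts, ∀ q ∈ G.pts, p = q :=
    Finset.card_le_one.1 (by omega)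
  induction e using Sym2.ind with
  | _ u v =>
    have hu := G.edge_mem _ he' u (by simp)
    have hv := G.edge_mem _ he' v (by simp)
    exact G.edge_ne _ he' (by rw [Sym2.mk_isDiag_iff]; exact hsub u hu v hv)

/-- the sharp form in the dense range -/
theorem sharp_k (G : GeomGraph) (k : ℕ) (he : G.pts.card * k < G.edges.card)
    (hn : G.pts.card ≤ 4 * k + 2) :
    ∃ l, IsLine l ∧ (∀ p ∈ G.pts, p ∉ l) ∧ k ^ 2 + k + 1 ≤ G.met l := by
  by_contra hcon
  have hall := allLines_of G (k ^ 2 + k + 1) (by omega) hcon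
  have hV := two_le G (by omega)
  have e1 : k ^ 2 + k + 1 - 1 = k ^ 2 + k := by omega
  rw [e1] at hall
  have h1 := Pool.Agent.H994E.dense_sharp G.pts G.edges (k ^ 2 + k) G.no_three_collinear
    G.edge_mem G.edge_ne hall hV (by nlinarith)
  generalize G.pts.card = n at *
  generalize G.edges.card = e at *
  have h2 : (2 * (n * k + 1) + n) ^ 2 ≤ (2 * e + n) ^ 2 :=
    Nat.pow_le_pow_left (by omega) 2
  have h3 : n * n ≤ n * (4 * k + 2) := Nat.mul_le_mul_left _ hn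
  nlinarith

/-- **Main theorem.** -/
theorem result (G : GeomGraph) :
    (∀ k : ℕ, 1 ≤ k → G.pts.card * k < G.edges.card →
      (G.pts.card ≤ 4 * k + 2 →
        ∃ l, IsLine l ∧ (∀ p ∈ G.pts, p ∉ l) ∧ k ^ 2 + k + 1 ≤ G.met l) ∧
      (G.pts.card ≤ 357 ∨ k ≤ 78 ∨ k ^ 3 ≤ 4 * G.pts.card ^ 2 →
        ∃ l, IsLine l ∧ (∀ p ∈ G.pts, p ∉ l) ∧ k ^ 2 ≤ G.met l) ∧
      ∃ l, IsLine l ∧ (∀ p ∈ G.pts, p ∉ l) ∧ (80 / 81 : ℝ) * (k : ℝ) ^ 2 ≤ (G.met l : ℝ)) ∧
    (1 ≤ G.edges.card → G.pts.card ^ 2 ≤ 4 * G.edges.card + 2 * G.pts.card →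
      ∃ l, IsLine l ∧ (∀ p ∈ G.pts, p ∉ l) ∧
        (2 * G.edges.card + G.pts.card) ^ 2 ≤ 4 * G.pts.card ^ 2 * G.met l + 2 * G.pts.card ^ 2) := by
  refine ⟨fun k hk he => ?_, fun he hd => ?_⟩
  · have hk2 : 1 ≤ k ^ 2 := Nat.one_le_pow _ _ hk
    have hex : (G.pts.card ≤ 4 * k ∨ G.pts.card ≤ 357 ∨ k ≤ 78 ∨ k ^ 3 ≤ 4 * G.pts.card ^ 2 →
        ∃ l, IsLine l ∧ (∀ p ∈ G.pts, p ∉ l) ∧ k ^ 2 ≤ G.met l) := by
      intro h
      by_contra hcon
      exact Pool.Agent.H994E.fin_k Pool.Agent.H994E.all_T8I Pool.Agent.H994E.all_T7F G.pts G.edges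
        G.no_three_collinear G.edge_mem G.edge_ne k hk he (allLines_of G (k ^ 2) hk2 hcon)
        (by tauto)
    refine ⟨fun h => sharp_k G k he h, fun h => hex (Or.inr h), ?_⟩
    rcases le_total G.pts.card (4 * k) with h4 | h4
    · obtain ⟨l, h1, h2, h3⟩ := hex (Or.inl h4)
      refine ⟨l, h1, h2, ?_⟩
      have h5 : ((k : ℝ)) ^ 2 ≤ (G.met l : ℝ) := by exact_mod_cast h3
      have h6 : (0:ℝ) ≤ (k:ℝ) ^ 2 := by positivity
      linarith
    · exact factor_sparse G k hk he h4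
  · by_contra hcon
    push Not at hcon
    have hV := two_le G he
    -- the least number of edges that is not met
    obtain ⟨t, ht1, ht2⟩ : ∃ t, (2 * G.edges.card + G.pts.card) ^ 2 ≤
        4 * G.pts.card ^ 2 * t + 2 * G.pts.card ^ 2 ∧ ∀ s, s < t →
        ¬ (2 * G.edges.card + G.pts.card) ^ 2 ≤ 4 * G.pts.card ^ 2 * s + 2 * G.pts.card ^ 2 := by
      have hex : ∃ t, (2 * G.edges.card + G.pts.card) ^ 2 ≤
          4 * G.pts.card ^ 2 * t + 2 * G.pts.card ^ 2 := by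
        refine ⟨(2 * G.edges.card + G.pts.card) ^ 2, ?_⟩
        have : 1 ≤ 4 * G.pts.card ^ 2 := by nlinarith
        nlinarith
      exact ⟨Nat.find hex, Nat.find_spec hex, fun s hs => Nat.find_min hex hs⟩
    rcases Nat.eq_zero_or_pos t with h0 | h0
    · -- then one edge would be too many
      rw [h0, mul_zero, zero_add] at ht1
      have hno : ¬ ∃ l, IsLine l ∧ (∀ p ∈ G.pts, p ∉ l) ∧ 0 ≤ G.met l := by
        rintro ⟨l, h1, h2, _⟩
        have h4 := hcon l h1 h2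
        omega
      obtain ⟨t', ht'⟩ := exists_shear G.pts
      obtain ⟨c, hc1, _⟩ := exists_threshold (fun p : ℝ × ℝ => p.1 + t' * p.2) G.pts ht' 0
        (by omega)
      refine hno ⟨{x | 1 * x.1 + t' * x.2 = c}, ⟨1, t', c, Or.inl one_ne_zero, rfl⟩, ?_,
        Nat.zero_le _⟩
      intro p hp hpl
      apply hc1 p hp
      have : 1 * p.1 + t' * p.2 = c := hpl
      linarith
    · have hno : ¬ ∃ l, IsLine l ∧ (∀ p ∈ G.pts, p ∉ l) ∧ t ≤ G.met l := by
        rintro ⟨l, h1, h2, h3⟩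
        have h4 := hcon l h1 h2
        have h5 : 4 * G.pts.card ^ 2 * t ≤ 4 * G.pts.card ^ 2 * G.met l :=
          Nat.mul_le_mul_left _ h3
        omega
      exact ht2 (t - 1) (by omega) (Pool.Agent.H994E.dense_sharp G.pts G.edges (t - 1)
        G.no_three_collinear G.edge_mem G.edge_ne (allLines_of G t h0 hno) hV hd)

end Pool.Agent.Results.MP_62448f_co.DenseCrossings
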